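import Mathlib

set_option autoImplicit false

/-!
Every countably infinite group in which, for some fixed number d, each finite subset lies in a
subgroup generated by d elements (in particular every infinite finitely generated group), and
every group that maps onto such a group, has an infinite slow generating set.
-/

namespace Pool.Agent.Results.MP_3a7344_al.BoundedLocalRank

open Filter

section Generic

variable {T : Type} (U : Ultrafilter T)

/-- Iterated ultrafilter quantifier over `q` successive choices, collected in a finite set. -/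
noncomputable def Gen [DecidableEq T] : ℕ → (Finset T → Prop) → Prop
  | 0, p => p ∅
  | q + 1, p => ∀ᶠ t in (U : Filter T), Gen q (fun s => p (insert t s))

variable [DecidableEq T]

theorem Gen.mono : ∀ (q : ℕ) (p p' : Finset T → Prop), (∀ s, p s → p' s) →
    Gen U q p → Gen U q p'
  | 0, _, _, h, hp => h _ hp
  | q + 1, p, p', h, hp => by
      simp only [Gen] at hp ⊢
      filter_upwards [hp] with t ht
      exact Gen.mono q _ _ (fun s hs => h _ hs) ht

theorem Gen.or : ∀ (q : ℕ) (p p' : Finset T → Prop),
    Gen U q (fun s => p s ∨ p' s) → Gen U q p ∨ Gen U q p'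
  | 0, _, _, hp => hp
  | q + 1, p, p', hp => by
      simp only [Gen] at hp ⊢
      rw [← Ultrafilter.eventually_or]
      filter_upwards [hp] with t ht
      exact Gen.or q _ _ ht

theorem Gen.and : ∀ (q : ℕ) (p p' : Finset T → Prop),
    Gen U q p → Gen U q p' → Gen U q (fun s => p s ∧ p' s)
  | 0, _, _, hp, hp' => ⟨hp, hp'⟩
  | q + 1, p, p', hp, hp' => by
      simp only [Gen] at hp hp' ⊢
      filter_upwards [hp, hp'] with t ht ht'
      exact Gen.and q _ _ ht ht'

theorem Gen.const : ∀ (q : ℕ) (c : Prop), Gen U q (fun _ => c) → c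
  | 0, _, hp => hp
  | q + 1, c, hp => by
      simp only [Gen] at hp
      obtain ⟨t, ht⟩ := hp.exists
      exact Gen.const q c ht

theorem Gen.const' : ∀ (q : ℕ) (c : Prop), c → Gen U q (fun _ => c)
  | 0, _, hc => hc
  | q + 1, c, hc => by
      simp only [Gen]
      filter_upwards with t
      exact Gen.const' q c hc

theorem Gen.card : ∀ (q : ℕ), Gen U q (fun s => s.card ≤ q)
  | 0 => by simp [Gen]
  | q + 1 => by
      simp only [Gen]
      filter_upwards with t
      refine Gen.mono U q _ _ ?_ (Gen.card q)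
      intro s hs
      exact (Finset.card_insert_le t s).trans (by omega)

theorem Gen.exists {q : ℕ} {p : Finset T → Prop} (hp : Gen U q p) :
    ∃ s : Finset T, s.card ≤ q ∧ p s := by
  by_contra hcon
  have h1 := Gen.and U q _ _ (Gen.card U q) hp
  exact Gen.const U q False (Gen.mono U q _ _ (fun s hs => hcon ⟨s, hs⟩) h1)

theorem Gen.forall_finset {A : Type} [DecidableEq A] (q : ℕ) (p : A → Finset T → Prop)
    (F : Finset A) (h : ∀ a ∈ F, Gen U q (p a)) : Gen U q (fun s => ∀ a ∈ F, p a s) := by
  induction F using Finset.induction_on with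
  | empty =>
      refine Gen.mono U q (fun _ => True) _ ?_ (Gen.const' U q True trivial)
      intro s _ a ha
      simp at ha
  | insert a F ha ih =>
      have h1 := Gen.and U q _ _ (h a (Finset.mem_insert_self _ _))
        (ih (fun b hb => h b (Finset.mem_insert_of_mem hb)))
      refine Gen.mono U q _ _ ?_ h1
      intro s hs b hb
      rcases Finset.mem_insert.1 hb with rfl | hb
      · exact hs.1
      · exact hs.2 b hb

/-- Unused choices can be dropped. -/
theorem Gen.drop : ∀ (q n : ℕ) (p : Finset T → Prop), (∀ s s', s ⊆ s' → p s → p s') →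
    Gen U q (fun s => ∃ s', s' ⊆ s ∧ s'.card ≤ n ∧ p s') → Gen U n p
  | 0, n, p, hm, h => by
      simp only [Gen] at h
      obtain ⟨s', h1, -, h3⟩ := h
      have h4 : ∀ s, p s := fun s => hm _ _ (h1.trans (Finset.empty_subset s)) h3
      exact Gen.mono U n (fun _ => True) _ (fun s _ => h4 s) (Gen.const' U n True trivial)
  | q + 1, n, p, hm, h => by
      simp only [Gen] at h
      have key : ∀ᶠ t in (U : Filter T),
          (Gen U q (fun s => ∃ s', s' ⊆ s ∧ s'.card ≤ n ∧ p s')) ∨
          (1 ≤ n ∧ Gen U q (fun s => ∃ s', s' ⊆ s ∧ s'.card ≤ n - 1 ∧ p (insert t s'))) := by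
        filter_upwards [h] with t ht
        by_cases hn : 1 ≤ n
        · have h2 : Gen U q (fun s => (∃ s', s' ⊆ s ∧ s'.card ≤ n ∧ p s') ∨
              (∃ s', s' ⊆ s ∧ s'.card ≤ n - 1 ∧ p (insert t s'))) := by
            refine Gen.mono U q _ _ ?_ ht
            rintro s ⟨s', h1, h2, h3⟩
            by_cases hts : t ∈ s'
            · right
              refine ⟨s'.erase t, ?_, ?_, ?_⟩
              · intro x hx
                have hx' := Finset.mem_erase.1 hx
                rcases Finset.mem_insert.1 (h1 hx'.2) with h5 | h5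
                · exact absurd h5 hx'.1
                · exact h5
              · rw [Finset.card_erase_of_mem hts]; omega
              · rwa [Finset.insert_erase hts]
            · left
              refine ⟨s', ?_, h2, h3⟩
              intro x hx
              rcases Finset.mem_insert.1 (h1 hx) with h5 | h5
              · exact absurd (h5 ▸ hx) hts
              · exact h5
          rcases Gen.or U q _ _ h2 with h3 | h3
          · exact Or.inl h3
          · exact Or.inr ⟨hn, h3⟩
        · left
          refine Gen.mono U q _ _ ?_ ht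
          rintro s ⟨s', h1, h2, h3⟩
          have hn0 : n = 0 := by omega
          have : s' = ∅ := by
            rw [hn0] at h2
            exact Finset.card_eq_zero.1 (Nat.le_zero.1 h2)
          subst this
          exact ⟨∅, Finset.empty_subset _, by simp, h3⟩
      rw [Ultrafilter.eventually_or] at key
      rcases key with h1 | h1
      · obtain ⟨t, ht⟩ := h1.exists
        exact Gen.drop q n p hm ht
      · obtain ⟨t, ht⟩ := h1.exists
        obtain ⟨m, rfl⟩ : ∃ m, n = m + 1 := ⟨n - 1, by omega⟩
        simp only [Gen]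
        filter_upwards [h1] with t ht
        have := ht.2
        simp only [Nat.add_sub_cancel] at this
        exact Gen.drop q m (fun s => p (insert t s))
          (fun s s' hs hp => hm _ _ (Finset.insert_subset_insert t hs) hp) this

end Generic

section Words

variable {G : Type} [Group G] [DecidableEq G]

open Pointwise

/-- Letters available from a finite set: the elements, their inverses, and the identity. -/
def letters (C : Finset G) : Finset G := insert 1 (C ∪ C⁻¹)

theorem letters_mono {C D : Finset G} (h : C ⊆ D) : letters C ⊆ letters D := by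
  intro x hx
  simp only [letters, Finset.mem_insert, Finset.mem_union, Finset.mem_inv'] at hx ⊢
  rcases hx with h1 | h1 | h1
  · exact Or.inl h1
  · exact Or.inr (Or.inl (h h1))
  · exact Or.inr (Or.inr (h h1))

theorem card_letters (C : Finset G) : (letters C).card ≤ 2 * C.card + 1 := by
  unfold letters
  refine (Finset.card_insert_le _ _).trans ?_
  have h1 := Finset.card_union_le C C⁻¹
  have h2 : (C⁻¹).card ≤ C.card := by
    rw [Finset.card_inv]
  omega

variable {d : ℕ}

/-- All entries of the tuples in `s`. -/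
def supp (s : Finset (Fin d → G)) : Finset G := s.biUnion (fun t => Finset.univ.image t)

omit [Group G] in
theorem supp_mono {s s' : Finset (Fin d → G)} (h : s ⊆ s') : supp s ⊆ supp s' :=
  Finset.biUnion_subset_biUnion_of_subset_left _ h

omit [Group G] in
theorem card_supp (s : Finset (Fin d → G)) : (supp s).card ≤ s.card * d := by
  unfold supp
  refine Finset.card_biUnion_le_card_mul _ _ _ ?_
  intro t _
  refine Finset.card_image_le.trans ?_
  simp

/-- A word of length `n` uses at most `n` of the tuples. -/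
theorem hit_local (C : Finset G) (s : Finset (Fin d → G)) :
    ∀ (n : ℕ) (a : G), a ∈ (letters (C ∪ supp s)) ^ n →
      ∃ s', s' ⊆ s ∧ s'.card ≤ n ∧ a ∈ (letters (C ∪ supp s')) ^ n
  | 0, a, h => ⟨∅, Finset.empty_subset _, by simp, by simpa using h⟩
  | n + 1, a, h => by
      rw [pow_succ] at h
      obtain ⟨b, hb, x, hx, rfl⟩ := Finset.mem_mul.1 h
      obtain ⟨s', h1, h2, h3⟩ := hit_local C s n b hb
      have hx' : x ∈ letters C ∨ ∃ t ∈ s, x ∈ letters (Finset.univ.image t) := by
        simp only [letters, supp, Finset.mem_insert, Finset.mem_union, Finset.mem_inv',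
          Finset.mem_biUnion] at hx ⊢
        rcases hx with h4 | (h4 | ⟨t, ht, h4⟩) | (h4 | ⟨t, ht, h4⟩)
        · exact Or.inl (Or.inl h4)
        · exact Or.inl (Or.inr (Or.inl h4))
        · exact Or.inr ⟨t, ht, Or.inr (Or.inl h4)⟩
        · exact Or.inl (Or.inr (Or.inr h4))
        · exact Or.inr ⟨t, ht, Or.inr (Or.inr h4)⟩
      rcases hx' with h4 | ⟨t, ht, h4⟩
      · refine ⟨s', h1, by omega, ?_⟩
        rw [pow_succ]
        exact Finset.mul_mem_mul h3 (letters_mono Finset.subset_union_left h4)
      · refine ⟨insert t s', Finset.insert_subset ht h1,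
          (Finset.card_insert_le _ _).trans (by omega), ?_⟩
        rw [pow_succ]
        refine Finset.mul_mem_mul ?_ ?_
        · refine Finset.pow_subset_pow_left ?_ h3
          exact letters_mono (Finset.union_subset_union_right
            (supp_mono (Finset.subset_insert _ _)))
        · refine letters_mono ?_ h4
          refine Finset.Subset.trans ?_ Finset.subset_union_right
          intro y hy
          exact Finset.mem_biUnion.2 ⟨t, Finset.mem_insert_self _ _, hy⟩

/-- `a` is produced by a word of length `n` in `C` and generic tuples. -/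
def Bad (U : Ultrafilter (Fin d → G)) (C : Finset G) (n : ℕ) (a : G) : Prop :=
  Gen U n (fun s => a ∈ (letters (C ∪ supp s)) ^ n)

theorem hit_mono (C : Finset G) (n : ℕ) (a : G) (s s' : Finset (Fin d → G)) (h : s ⊆ s')
    (ha : a ∈ (letters (C ∪ supp s)) ^ n) : a ∈ (letters (C ∪ supp s')) ^ n :=
  Finset.pow_subset_pow_left
    (letters_mono (Finset.union_subset_union_right (supp_mono h))) ha

theorem bad_of_mem (U : Ultrafilter (Fin d → G)) (C : Finset G) (n : ℕ) (a : G)
    (ha : a ∈ (letters C) ^ n) : Bad U C n a := by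
  refine Gen.mono U n (fun _ => True) _ ?_ (Gen.const' U n True trivial)
  intro s _
  exact Finset.pow_subset_pow_left (letters_mono Finset.subset_union_left) ha

theorem exists_not_bad [Infinite G] (U : Ultrafilter (Fin d → G)) (C : Finset G) (n : ℕ) :
    ∃ a, ¬ Bad U C n a := by
  by_contra hcon
  push Not at hcon
  obtain ⟨A, hA⟩ := Infinite.exists_subset_card_eq G ((2 * (C.card + n * d) + 1) ^ n + 1)
  have h1 := Gen.forall_finset U n (fun a s => a ∈ (letters (C ∪ supp s)) ^ n) A
    (fun a _ => hcon a)
  obtain ⟨s, hs, h2⟩ := Gen.exists U h1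
  have h3 : A.card ≤ ((letters (C ∪ supp s)) ^ n).card := Finset.card_le_card h2
  have h4 := Finset.card_pow_le (s := letters (C ∪ supp s)) (n := n)
  have h5 := card_letters (C ∪ supp s)
  have h6 := Finset.card_union_le C (supp s)
  have h7 := card_supp s
  have h8 : s.card * d ≤ n * d := Nat.mul_le_mul_right d hs
  have h9 : (letters (C ∪ supp s)).card ≤ 2 * (C.card + n * d) + 1 := by omega
  have h10 : (letters (C ∪ supp s)).card ^ n ≤ (2 * (C.card + n * d) + 1) ^ n :=
    Nat.pow_le_pow_left h9 n
  omega

theorem bad_step (U : Ultrafilter (Fin d → G)) (C : Finset G) (n : ℕ) (a : G)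
    (h : ¬ Bad U C n a) :
    ∀ᶠ t in (U : Filter (Fin d → G)), ¬ Bad U (C ∪ Finset.univ.image t) n a := by
  rw [Ultrafilter.eventually_not]
  intro hcon
  apply h
  have h1 : Gen U (n + 1) (fun s => a ∈ (letters (C ∪ supp s)) ^ n) := by
    simp only [Gen]
    filter_upwards [hcon] with t ht
    refine Gen.mono U n _ _ ?_ ht
    intro s hs
    have : C ∪ Finset.univ.image t ∪ supp s = C ∪ supp (insert t s) := by
      simp [supp, Finset.biUnion_insert, Finset.union_assoc]
    rwa [this] at hs
  have h2 : Gen U (n + 1) (fun s => ∃ s', s' ⊆ s ∧ s'.card ≤ n ∧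
      a ∈ (letters (C ∪ supp s')) ^ n) :=
    Gen.mono U (n + 1) _ _ (fun s hs => hit_local C s n a hs) h1
  exact Gen.drop U (n + 1) n _ (fun s s' hss hs => hit_mono C n a s s' hss hs) h2

end Words

section Construction

open Pointwise

variable {G : Type} [Group G]

/-- Every finite subset of `G` lies in a subgroup generated by `d` elements. -/
def LocalRankLE (G : Type) [Group G] (d : ℕ) : Prop :=
  ∀ F : Finset G, ∃ t : Fin d → G, ∀ x ∈ F, x ∈ Subgroup.closure (Set.range t)

/-- A set `X` is slow if for every `n` some element of the group is not a product of at most `n`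
elements of `X` and inverses of such elements. -/
def Slow (X : Set G) : Prop :=
  ∀ n : ℕ, ∃ g : G, ¬ ∃ l : List G,
    l.length ≤ n ∧ (∀ x ∈ l, x ∈ X ∨ x⁻¹ ∈ X) ∧ l.prod = g

theorem exists_ultrafilter [Infinite G] {d : ℕ} (h : LocalRankLE G d) :
    ∃ U : Ultrafilter (Fin (d + 1) → G), ∀ F : Finset G, ∀ᶠ t in (U : Filter (Fin (d + 1) → G)),
      (∀ x ∈ F, x ∈ Subgroup.closure (Set.range t)) ∧ ∃ i, t i ∉ F := by
  classical
  have h1 : ∀ F : Finset G, ∃ t : Fin (d + 1) → G,
      (∀ x ∈ F, x ∈ Subgroup.closure (Set.range t)) ∧ ∃ i, t i ∉ F := by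
    intro F
    obtain ⟨t, ht⟩ := h F
    obtain ⟨y, hy⟩ := Infinite.exists_notMem_finset F
    refine ⟨Fin.cons y t, ?_, 0, by simpa using hy⟩
    intro x hx
    refine Subgroup.closure_mono ?_ (ht x hx)
    rintro z ⟨i, rfl⟩
    exact ⟨i.succ, by simp⟩
  choose φ hφ using h1
  refine ⟨Ultrafilter.of (Filter.map φ Filter.atTop), ?_⟩
  intro F
  have h2 : ∀ᶠ t in Filter.map φ Filter.atTop,
      (∀ x ∈ F, x ∈ Subgroup.closure (Set.range t)) ∧ ∃ i, t i ∉ F := by
    rw [Filter.eventually_map]
    filter_upwards [Filter.eventually_ge_atTop F] with E hE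
    refine ⟨fun x hx => (hφ E).1 x (hE hx), ?_⟩
    obtain ⟨i, hi⟩ := (hφ E).2
    exact ⟨i, fun hc => hi (hE hc)⟩
  exact (Ultrafilter.of_le _) h2

theorem list_mem_pow [DecidableEq G] (C : Finset G) (l : List G)
    (hl : ∀ x ∈ l, x ∈ letters C) : l.prod ∈ (letters C) ^ l.length := by
  induction l with
  | nil => simp
  | cons y l ih =>
      rw [List.prod_cons, List.length_cons, pow_succ']
      exact Finset.mul_mem_mul (hl y (by simp)) (ih (fun x hx => hl x (by simp [hx])))

theorem exists_slow [Countable G] [Infinite G] {d : ℕ} (h : LocalRankLE G d) :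
    ∃ X : Set G, Subgroup.closure X = ⊤ ∧ X.Infinite ∧ Slow X := by
  classical
  obtain ⟨U, hU⟩ := exists_ultrafilter h
  obtain ⟨g, hg⟩ := exists_surjective_nat G
  let St := {s : Finset G × (ℕ → G) × ℕ // ∀ j < s.2.2, ¬ Bad U s.1 j (s.2.1 j)}
  have step : ∀ s : St, ∃ s' : St, s'.1.2.2 = s.1.2.2 + 1 ∧ s.1.1 ⊆ s'.1.1 ∧
      g s.1.2.2 ∈ Subgroup.closure (s'.1.1 : Set G) ∧ (∃ x ∈ s'.1.1, x ∉ s.1.1) ∧
      ∀ j < s.1.2.2, s'.1.2.1 j = s.1.2.1 j := by
    rintro ⟨⟨C, w, k⟩, hs⟩
    obtain ⟨a, ha⟩ := exists_not_bad U C k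
    have h1 : ∀ᶠ t in (U : Filter (Fin (d + 1) → G)), ∀ j ∈ Finset.range (k + 1),
        ¬ Bad U (C ∪ Finset.univ.image t) j (Function.update w k a j) := by
      rw [Filter.eventually_all_finset]
      intro j hj
      apply bad_step
      rcases Nat.lt_succ_iff_lt_or_eq.1 (Finset.mem_range.1 hj) with h2 | h2
      · rw [Function.update_of_ne (by omega)]
        exact hs j h2
      · subst h2
        simpa using ha
    obtain ⟨t, ht1, ht2, i, hi⟩ := (h1.and (hU (insert (g k) C))).exists
    refine ⟨⟨⟨C ∪ Finset.univ.image t, Function.update w k a, k + 1⟩, ?_⟩, rfl,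
      Finset.subset_union_left, ?_, ?_, ?_⟩
    · intro j hj
      exact ht1 j (Finset.mem_range.2 hj)
    · refine Subgroup.closure_mono ?_ (ht2 (g k) (Finset.mem_insert_self _ _))
      rintro z ⟨i, rfl⟩
      simp
    · refine ⟨t i, by simp, fun hc => hi (Finset.mem_insert_of_mem hc)⟩
    · intro j hj
      exact Function.update_of_ne (by simp only at hj; omega) _ _
  choose nxt hn1 hn2 hn3 hn4 hn5 using step
  let s0 : St := ⟨⟨∅, fun _ => 1, 0⟩, fun j hj => absurd hj (Nat.not_lt_zero j)⟩
  let f : ℕ → St := fun n => Nat.rec s0 (fun _ s => nxt s) n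
  have hf : ∀ n, f (n + 1) = nxt (f n) := fun n => rfl
  have hk : ∀ n, (f n).1.2.2 = n := by
    intro n
    induction n with
    | zero => rfl
    | succ n ih => rw [hf, hn1, ih]
  have hmono1 : ∀ n, (f n).1.1 ⊆ (f (n + 1)).1.1 := fun n => by rw [hf]; exact hn2 _
  have hmono : Monotone (fun n => (f n).1.1) := monotone_nat_of_le_succ hmono1
  have hw : ∀ j n, j < n → (f n).1.2.1 j = (f (j + 1)).1.2.1 j := by
    intro j n hjn
    induction n with
    | zero => omega
    | succ n ih =>
        rcases Nat.lt_succ_iff_lt_or_eq.1 hjn with h2 | h2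
        · rw [hf, hn5 _ j (by rw [hk]; exact h2)]
          exact ih h2
        · subst h2
          rfl
  let X : Set G := {x | ∃ n, x ∈ (f n).1.1}
  refine ⟨X, ?_, ?_, ?_⟩
  · rw [eq_top_iff]
    intro x _
    obtain ⟨n, rfl⟩ := hg x
    have h1 := hn3 (f n)
    rw [hk n] at h1
    refine Subgroup.closure_mono ?_ h1
    intro y hy
    exact ⟨n + 1, by rw [hf]; exact hy⟩
  · intro hfin
    have h1 : ∀ n, n ≤ (f n).1.1.card := by
      intro n
      induction n with
      | zero => simp
      | succ n ih =>
          have h2 : (f n).1.1 ⊂ (f (n + 1)).1.1 := by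
            refine (Finset.ssubset_iff_of_subset (hmono1 n)).2 ?_
            obtain ⟨x, hx1, hx2⟩ := hn4 (f n)
            exact ⟨x, by rw [hf]; exact hx1, hx2⟩
          have := Finset.card_lt_card h2
          omega
    have h2 : ∀ n, (f n).1.1.card ≤ hfin.toFinset.card := by
      intro n
      refine Finset.card_le_card ?_
      intro x hx
      simp only [Set.Finite.mem_toFinset]
      exact ⟨n, hx⟩
    have h3 := h1 (hfin.toFinset.card + 1)
    have h4 := h2 (hfin.toFinset.card + 1)
    omega
  · intro n
    refine ⟨(f (n + 1)).1.2.1 n, ?_⟩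
    rintro ⟨l, hl1, hl2, hl3⟩
    have h1 : ∀ l : List G, (∀ x ∈ l, x ∈ X ∨ x⁻¹ ∈ X) → ∃ m, ∀ x ∈ l, x ∈ letters (f m).1.1 := by
      intro l
      induction l with
      | nil => intro _; exact ⟨0, by simp⟩
      | cons y l ih =>
          intro hl
          obtain ⟨m, hm⟩ := ih (fun x hx => hl x (by simp [hx]))
          have h2 : ∃ m', y ∈ letters (f m').1.1 := by
            rcases hl y (by simp) with ⟨m', h3⟩ | ⟨m', h3⟩
            · exact ⟨m', by simp [letters, h3]⟩
            · exact ⟨m', by simp [letters, h3]⟩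
          obtain ⟨m', hm'⟩ := h2
          refine ⟨max m m', ?_⟩
          intro x hx
          rcases List.mem_cons.1 hx with h3 | h3
          · subst h3
            exact letters_mono (hmono (le_max_right m m')) hm'
          · exact letters_mono (hmono (le_max_left m m')) (hm x h3)
    obtain ⟨m, hm⟩ := h1 l hl2
    have h2 := list_mem_pow (f m).1.1 l hm
    have h3 : l.prod ∈ (letters (f (max m (n + 1))).1.1) ^ n := by
      have h4 : l.prod ∈ (letters (f (max m (n + 1))).1.1) ^ l.length :=
        Finset.pow_subset_pow_left (letters_mono (hmono (le_max_left _ _))) h2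
      exact Finset.pow_subset_pow_right (by simp [letters]) hl1 h4
    have h5 := (f (max m (n + 1))).2 n (by rw [hk]; omega)
    apply h5
    rw [hw n (max m (n + 1)) (by omega), ← hl3]
    exact bad_of_mem U _ n _ h3

end Construction

/-- If a group `G` maps onto a countably infinite group `Q` in which, for some fixed `d`, every
finite subset lies in a `d`-generated subgroup (for instance an infinite finitely generated
group), then `G` has an infinite slow generating set. -/
theorem result (G Q : Type) [Group G] [Group Q] [Countable Q] [Infinite Q]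
    (φ : G →* Q) (hφ : Function.Surjective φ) (d : ℕ)
    (h : ∀ F : Finset Q, ∃ t : Fin d → Q, ∀ x ∈ F, x ∈ Subgroup.closure (Set.range t)) :
    ∃ X : Set G, Subgroup.closure X = ⊤ ∧ X.Infinite ∧
      ¬ ∃ n : ℕ, ∀ g : G, ∃ l : List G,
          l.length ≤ n ∧ (∀ x ∈ l, x ∈ X ∨ x⁻¹ ∈ X) ∧ l.prod = g := by
  obtain ⟨X, hX1, hX2, hX3⟩ := exists_slow h
  refine ⟨φ ⁻¹' X, ?_, ?_, ?_⟩
  · rw [eq_top_iff]
    intro g _
    have hmap : (Subgroup.closure (φ ⁻¹' X)).map φ = ⊤ := by
      rw [MonoidHom.map_closure, Set.image_preimage_eq X hφ, hX1]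
    have h1 : φ g ∈ (Subgroup.closure (φ ⁻¹' X)).map φ := by rw [hmap]; trivial
    obtain ⟨k, hk1, hk2⟩ := Subgroup.mem_map.1 h1
    obtain ⟨x0, hx0⟩ := hX2.nonempty
    obtain ⟨y, hy⟩ := hφ x0
    have hy1 : y ∈ Subgroup.closure (φ ⁻¹' X) := by
      apply Subgroup.subset_closure
      simpa [hy] using hx0
    have hy2 : y * (k⁻¹ * g) ∈ Subgroup.closure (φ ⁻¹' X) := by
      apply Subgroup.subset_closure
      simp only [Set.mem_preimage, map_mul, map_inv, hk2, hy]
      simpa using hx0
    have h2 := Subgroup.mul_mem _ hk1 (Subgroup.mul_mem _ (Subgroup.inv_mem _ hy1) hy2)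
    have h3 : k * (y⁻¹ * (y * (k⁻¹ * g))) = g := by group
    rwa [h3] at h2
  · exact hX2.preimage (by rw [hφ.range_eq]; exact Set.subset_univ _)
  · rintro ⟨n, hn⟩
    obtain ⟨q, hq⟩ := hX3 n
    obtain ⟨g, rfl⟩ := hφ q
    obtain ⟨l, hl1, hl2, hl3⟩ := hn g
    apply hq
    refine ⟨l.map φ, by simpa using hl1, ?_, ?_⟩
    · intro x hx
      obtain ⟨y, hy, rfl⟩ := List.mem_map.1 hx
      rcases hl2 y hy with h4 | h4
      · exact Or.inl h4
      · right
        simpa using h4
    · rw [← map_list_prod, hl3]

/-- Sanity check: a countably infinite finitely generated group satisfies the hypothesis of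
`result` with `Q = G`, so it has an infinite slow generating set. -/
theorem finitely_generated_case (G : Type) [Group G] [Countable G] [Infinite G] [Group.FG G] :
    ∃ X : Set G, Subgroup.closure X = ⊤ ∧ X.Infinite ∧
      ¬ ∃ n : ℕ, ∀ g : G, ∃ l : List G,
          l.length ≤ n ∧ (∀ x ∈ l, x ∈ X ∨ x⁻¹ ∈ X) ∧ l.prod = g := by
  obtain ⟨n, S, hn, hS⟩ := (Group.fg_iff' (G := G)).1 inferInstance
  refine result G G (MonoidHom.id G) Function.surjective_id n ?_
  intro F
  refine ⟨fun i => (S.equivFinOfCardEq hn).symm i, ?_⟩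
  intro x _
  have h1 : Set.range (fun i => (((S.equivFinOfCardEq hn).symm i : S) : G)) = (S : Set G) := by
    ext y
    constructor
    · rintro ⟨i, rfl⟩
      simp
    · intro hy
      exact ⟨S.equivFinOfCardEq hn ⟨y, hy⟩, by simp⟩
  rw [h1, hS]
  trivial

end Pool.Agent.Results.MP_3a7344_al.BoundedLocalRank
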