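import Mathlib

set_option autoImplicit false

namespace Pool.Agent.Results.MP_3a7344_al.SlowRankCompact

open Pointwise Topology

/-- iterated limit of a coloring along an ultrafilter -/
noncomputable def lim (U : Ultrafilter ℕ) {κ : Type*} [Inhabited κ] : ℕ → (Finset ℕ → κ) → κ
  | 0, c => c ∅
  | n + 1, c => by
      classical
      exact if h : ∃ j, ∀ᶠ a in (U : Filter ℕ), lim U n (fun s => c (insert a s)) = j then h.choose else default

theorem lim_succ (U : Ultrafilter ℕ) {κ : Type*} [Inhabited κ] [Finite κ] (n : ℕ) (c : Finset ℕ → κ) :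
    ∀ᶠ a in (U : Filter ℕ), lim U n (fun s => c (insert a s)) = lim U (n + 1) c := by
  classical
  have h : ∃ j, ∀ᶠ a in (U : Filter ℕ), lim U n (fun s => c (insert a s)) = j := by
    rw [← Ultrafilter.eventually_exists_iff]
    exact Filter.Eventually.of_forall (fun a => ⟨_, rfl⟩)
  simp only [lim]
  rw [dif_pos h]
  exact h.choose_spec

theorem ramsey {κ : Type*} [Finite κ] (n : ℕ) (c : Finset ℕ → κ) (A : Set ℕ) (hA : A.Infinite) :
    ∃ B ⊆ A, B.Infinite ∧ ∃ j, ∀ s : Finset ℕ, (s : Set ℕ) ⊆ B → s.card = n → c s = j := by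
  classical
  have : Inhabited κ := ⟨c ∅⟩
  have := hA.cofinite_inf_principal_neBot
  set U : Ultrafilter ℕ := Ultrafilter.of (Filter.cofinite ⊓ Filter.principal A) with hU
  have hUle : (U : Filter ℕ) ≤ Filter.cofinite ⊓ Filter.principal A := Ultrafilter.of_le _
  have hUA : ∀ᶠ a in (U : Filter ℕ), a ∈ A := by
    have := hUle.trans inf_le_right
    exact this (Filter.mem_principal_self A)
  have hUcof : ∀ a : ℕ, ∀ᶠ b in (U : Filter ℕ), b ≠ a := by
    intro a
    have := hUle.trans inf_le_left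
    exact this (by simp)
  set j := lim U n c with hj
  let P : Finset ℕ → Prop := fun F => (F : Set ℕ) ⊆ A ∧
    ∀ s ⊆ F, s.card ≤ n → lim U (n - s.card) (fun t => c (s ∪ t)) = j
  have hP0 : P ∅ := by
    refine ⟨by simp, ?_⟩
    intro s hs _
    rw [Finset.subset_empty] at hs
    subst hs
    simp [hj]
  have hstep : ∀ F, P F → ∃ a, a ∉ F ∧ P (insert a F) := by
    intro F hF
    have h1 : ∀ᶠ a in (U : Filter ℕ), ∀ s ∈ F.powerset, s.card + 1 ≤ n →
        lim U (n - (s.card + 1)) (fun t => c (insert a s ∪ t)) = j := by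
      rw [Finset.eventually_all]
      intro s hs
      rw [Finset.mem_powerset] at hs
      by_cases hc : s.card + 1 ≤ n
      · have h2 := lim_succ U (n - (s.card + 1)) (fun t => c (s ∪ t))
        have h3 : n - (s.card + 1) + 1 = n - s.card := by omega
        rw [h3, hF.2 s hs (by omega)] at h2
        filter_upwards [h2] with a ha _
        rw [← ha]
        congr 1
        funext t
        rw [Finset.insert_union, Finset.union_insert]
      · exact Filter.Eventually.of_forall (fun a h => absurd h hc)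
    have h2 : ∀ᶠ a in (U : Filter ℕ), ∀ b ∈ F, a ≠ b := by
      rw [Finset.eventually_all]
      intro b _
      exact hUcof b
    obtain ⟨a, ha1, ha2, ha3⟩ := (h1.and (h2.and hUA)).exists
    refine ⟨a, fun h => ha2 a h rfl, ?_, ?_⟩
    · intro x hx
      rw [Finset.coe_insert] at hx
      rcases hx with rfl | hx
      · exact ha3
      · exact hF.1 hx
    · intro s hs hc
      by_cases has : a ∈ s
      · have h4 : s.erase a ∈ F.powerset := by
          rw [Finset.mem_powerset]
          intro x hx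
          rw [Finset.mem_erase] at hx
          have := hs hx.2
          rw [Finset.mem_insert] at this
          rcases this with h | h
          · exact absurd h hx.1
          · exact h
        have h5 := ha1 (s.erase a) h4
        rw [Finset.card_erase_of_mem has, Finset.insert_erase has] at h5
        have h6 : 0 < s.card := Finset.card_pos.mpr ⟨a, has⟩
        have h7 : s.card - 1 + 1 = s.card := by omega
        rw [h7] at h5
        exact h5 hc
      · refine hF.2 s ?_ hc
        intro x hx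
        have := hs hx
        rw [Finset.mem_insert] at this
        rcases this with h | h
        · subst h; exact absurd hx has
        · exact h
  choose! f hf1 hf2 using hstep
  obtain ⟨seq, hseq0, hseqsucc⟩ : ∃ seq : ℕ → Finset ℕ, seq 0 = ∅ ∧ ∀ m, seq (m + 1) = insert (f (seq m)) (seq m) :=
    ⟨fun m => Nat.rec ∅ (fun _ F => insert (f F) F) m, rfl, fun _ => rfl⟩
  have hseqP : ∀ m, P (seq m) := by
    intro m
    induction m with
    | zero => rw [hseq0]; exact hP0
    | succ m ih => rw [hseqsucc]; exact hf2 _ ih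
  have hcard : ∀ m, (seq m).card = m := by
    intro m
    induction m with
    | zero => rw [hseq0]; rfl
    | succ m ih =>
      rw [hseqsucc, Finset.card_insert_of_notMem (hf1 _ (hseqP m)), ih]
  have hmono : Monotone seq := by
    refine monotone_nat_of_le_succ (fun m => ?_)
    rw [hseqsucc]
    exact Finset.subset_insert _ _
  refine ⟨⋃ m : ℕ, (↑(seq m) : Set ℕ), ?_, ?_, j, ?_⟩
  · exact Set.iUnion_subset (fun m => (hseqP m).1)
  · intro hfin
    have h1 : (seq (hfin.toFinset.card + 1)) ⊆ hfin.toFinset := by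
      intro x hx
      rw [Set.Finite.mem_toFinset]
      exact Set.mem_iUnion.mpr ⟨_, hx⟩
    have := Finset.card_le_card h1
    rw [hcard] at this
    omega
  · intro s hs hc
    have h1 : ∃ m, s ⊆ seq m := by
      have : ∀ x ∈ s, ∃ m, x ∈ seq m := by
        intro x hx
        have := hs hx
        rw [Set.mem_iUnion] at this
        exact this
      choose! g hg using this
      refine ⟨s.sup g, fun x hx => ?_⟩
      exact hmono (Finset.le_sup hx) (hg x hx)
    obtain ⟨m, hm⟩ := h1
    have := (hseqP m).2 s hm hc.le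
    rw [hc, Nat.sub_self] at this
    simpa [lim] using this

variable {G : Type*} [Group G]

/-- the elements that are products of at most `n` elements of `X` and inverses of elements of `X` -/
def ball (X : Set G) (n : ℕ) : Set G :=
  {g | ∃ l : List G, l.length ≤ n ∧ (∀ x ∈ l, x ∈ X ∨ x⁻¹ ∈ X) ∧ l.prod = g}

theorem ball_mono {X Y : Set G} (h : X ⊆ Y) (n : ℕ) : ball X n ⊆ ball Y n := by
  rintro g ⟨l, h1, h2, h3⟩
  exact ⟨l, h1, fun x hx => (h2 x hx).imp (fun a => h a) (fun a => h a), h3⟩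

theorem ball_mono' {X : Set G} {m n : ℕ} (h : m ≤ n) : ball X m ⊆ ball X n := by
  rintro g ⟨l, h1, h2, h3⟩
  exact ⟨l, h1.trans h, h2, h3⟩

theorem ball_finset (S : Finset G) (n : ℕ) :
    ∃ T : Finset G, T.card ≤ (2 * S.card + 1) ^ n ∧ ball (S : Set G) n ⊆ T := by
  classical
  refine ⟨(insert 1 (S ∪ S⁻¹)) ^ n, ?_, ?_⟩
  · refine Finset.card_pow_le.trans ?_
    refine Nat.pow_le_pow_left ?_ n
    refine (Finset.card_insert_le _ _).trans ?_
    have h1 := Finset.card_union_le S S⁻¹
    have h2 : (S⁻¹).card = S.card := Finset.card_inv S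
    omega
  · rintro g ⟨l, h1, h2, h3⟩
    have key : ∀ l : List G, (∀ x ∈ l, x ∈ (S : Set G) ∨ x⁻¹ ∈ (S : Set G)) →
        l.prod ∈ (insert 1 (S ∪ S⁻¹)) ^ l.length := by
      intro l
      induction l with
      | nil => intro _; simp
      | cons a l ih =>
        intro h
        rw [List.prod_cons, List.length_cons, pow_succ']
        refine Finset.mul_mem_mul ?_ (ih (fun x hx => h x (List.mem_cons_of_mem _ hx)))
        have := h a List.mem_cons_self
        rw [Finset.mem_insert, Finset.mem_union, Finset.mem_inv']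
        simp only [Finset.mem_coe] at this
        exact Or.inr this
    have h4 := key l h2
    rw [h3] at h4
    have h5 : (insert 1 (S ∪ S⁻¹)) ^ l.length ⊆ (insert 1 (S ∪ S⁻¹)) ^ n :=
      Finset.pow_subset_pow_right (Finset.mem_insert_self _ _) h1
    exact h5 h4

/-- the union of the blocks with index in `A` -/
def blk (Y : ℕ → Finset G) (A : Set ℕ) : Set G := ⋃ i ∈ A, (Y i : Set G)

omit [Group G] in
theorem blk_mono (Y : ℕ → Finset G) {A B : Set ℕ} (h : A ⊆ B) : blk Y A ⊆ blk Y B :=
  Set.biUnion_subset_biUnion_left h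

theorem local_ball (Y : ℕ → Finset G) (F : Finset ℕ) (A : Set ℕ) (n : ℕ) (g : G)
    (hg : g ∈ ball (blk Y (F ∪ A)) n) :
    ∃ s : Finset ℕ, (s : Set ℕ) ⊆ A ∧ s.card ≤ n ∧ g ∈ ball (blk Y (F ∪ s)) n := by
  classical
  obtain ⟨l, h1, h2, h3⟩ := hg
  have key : ∀ l : List G, (∀ x ∈ l, x ∈ blk Y (F ∪ A) ∨ x⁻¹ ∈ blk Y (F ∪ A)) →
      ∃ s : Finset ℕ, (s : Set ℕ) ⊆ A ∧ s.card ≤ l.length ∧
        ∀ x ∈ l, x ∈ blk Y (F ∪ s) ∨ x⁻¹ ∈ blk Y (F ∪ s) := by
    intro l
    induction l with
    | nil => intro _; exact ⟨∅, by simp, by simp, by simp⟩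
    | cons a l ih =>
      intro h
      obtain ⟨s, hs1, hs2, hs3⟩ := ih (fun x hx => h x (List.mem_cons_of_mem _ hx))
      have haux : ∀ y : G, y ∈ blk Y (F ∪ A) → ∃ t : Finset ℕ, (t : Set ℕ) ⊆ A ∧ t.card ≤ 1 ∧ y ∈ blk Y (F ∪ t) := by
        intro y hy
        simp only [blk, Set.mem_iUnion] at hy
        obtain ⟨i, hi, hy⟩ := hy
        rcases hi with hi | hi
        · refine ⟨∅, by simp, by simp, ?_⟩
          simp only [blk, Set.mem_iUnion]
          exact ⟨i, Or.inl hi, hy⟩
        · refine ⟨{i}, by simpa using hi, by simp, ?_⟩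
          simp only [blk, Set.mem_iUnion]
          exact ⟨i, Or.inr (by simp), hy⟩
      have hau : ∃ t : Finset ℕ, (t : Set ℕ) ⊆ A ∧ t.card ≤ 1 ∧ (a ∈ blk Y (F ∪ t) ∨ a⁻¹ ∈ blk Y (F ∪ t)) := by
        rcases h a List.mem_cons_self with h4 | h4
        · obtain ⟨t, ht1, ht2, ht3⟩ := haux _ h4
          exact ⟨t, ht1, ht2, Or.inl ht3⟩
        · obtain ⟨t, ht1, ht2, ht3⟩ := haux _ h4
          exact ⟨t, ht1, ht2, Or.inr ht3⟩
      obtain ⟨t, ht1, ht2, ht3⟩ := hau
      refine ⟨s ∪ t, ?_, ?_, ?_⟩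
      · rw [Finset.coe_union]; exact Set.union_subset hs1 ht1
      · rw [List.length_cons]
        have := Finset.card_union_le s t
        omega
      · have m1 : blk Y (F ∪ s) ⊆ blk Y (F ∪ ↑(s ∪ t)) := by
          apply blk_mono
          rw [Finset.coe_union]
          exact Set.union_subset_union_right _ Set.subset_union_left
        have m2 : blk Y (F ∪ t) ⊆ blk Y (F ∪ ↑(s ∪ t)) := by
          apply blk_mono
          rw [Finset.coe_union]
          exact Set.union_subset_union_right _ Set.subset_union_right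
        intro x hx
        rw [List.mem_cons] at hx
        rcases hx with rfl | hx
        · exact ht3.imp (fun a => m2 a) (fun a => m2 a)
        · exact (hs3 x hx).imp (fun a => m1 a) (fun a => m1 a)
  obtain ⟨s, hs1, hs2, hs3⟩ := key l h2
  exact ⟨s, hs1, hs2.trans h1, ⟨l, h1, hs3, h3⟩⟩

theorem thin_step [Infinite G] (Y : ℕ → Finset G) (r : ℕ) (hY : ∀ i, (Y i).card ≤ r)
    (F : Finset ℕ) (A : Set ℕ) (hA : A.Infinite) (n : ℕ) :
    ∃ A' ⊆ A, A'.Infinite ∧ ∃ g, g ∉ ball (blk Y (F ∪ A')) n := by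
  classical
  set M := (2 * ((F.card + n) * r) + 1) ^ n with hM
  obtain ⟨Γ, hΓ⟩ := Infinite.exists_subset_card_eq G (M + 1)
  let c : Finset ℕ → Set Γ := fun s => {g | (g : G) ∈ ball (blk Y (F ∪ s)) n}
  obtain ⟨A', hA', hinf, C, hC⟩ := ramsey n c A hA
  refine ⟨A', hA', hinf, ?_⟩
  obtain ⟨s0, hs0, hs0c⟩ := hinf.exists_subset_card_eq n
  have hbound : ∃ g : Γ, g ∉ C := by
    by_contra hcon
    push Not at hcon
    rw [← hC s0 hs0 hs0c] at hcon
    -- all of Γ lies in the ball
    have h1 : blk Y (F ∪ s0) = (((F ∪ s0).biUnion Y : Finset G) : Set G) := by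
      simp only [blk]
      ext x
      simp
    obtain ⟨T, hT1, hT2⟩ := ball_finset ((F ∪ s0).biUnion Y) n
    have h2 : Γ ⊆ T := by
      intro g hg
      have := hcon ⟨g, hg⟩
      simp only [c, Set.mem_ofPred_eq] at this
      rw [h1] at this
      exact hT2 this
    have h3 := Finset.card_le_card h2
    rw [hΓ] at h3
    have h4 : ((F ∪ s0).biUnion Y).card ≤ (F.card + n) * r := by
      refine Finset.card_biUnion_le.trans ?_
      refine (Finset.sum_le_card_nsmul _ _ r (fun i _ => hY i)).trans ?_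
      rw [smul_eq_mul]
      refine Nat.mul_le_mul_right r ?_
      have := Finset.card_union_le F s0
      omega
    have h5 : (2 * ((F ∪ s0).biUnion Y).card + 1) ^ n ≤ M := by
      rw [hM]
      exact Nat.pow_le_pow_left (by omega) n
    omega
  obtain ⟨g, hg⟩ := hbound
  refine ⟨g, fun hmem => ?_⟩
  obtain ⟨s, hs1, hs2, hs3⟩ := local_ball Y F A' n g hmem
  obtain ⟨t, ht1, ht2⟩ := (hinf.sdiff s.finite_toSet).exists_subset_card_eq (n - s.card)
  have hdisj : Disjoint s t := by
    rw [Finset.disjoint_left]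
    intro x hx hx'
    exact (ht1 hx').2 hx
  obtain ⟨s', hs'1, hs'2, hs'3⟩ : ∃ s' : Finset ℕ, s ⊆ s' ∧ (s' : Set ℕ) ⊆ A' ∧ s'.card = n := by
    refine ⟨s ∪ t, Finset.subset_union_left, ?_, ?_⟩
    · rw [Finset.coe_union]
      exact Set.union_subset hs1 (fun x hx => (ht1 hx).1)
    · rw [Finset.card_union_of_disjoint hdisj, ht2]
      omega
  have h6 := hC s' hs'2 hs'3
  apply hg
  rw [← h6]
  simp only [c, Set.mem_ofPred_eq]
  refine ball_mono (blk_mono Y ?_) n hs3
  exact Set.union_subset_union_right _ (by exact_mod_cast hs'1)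

theorem slow_blocks [Infinite G] (Y : ℕ → Finset G) (r : ℕ) (hY : ∀ i, (Y i).card ≤ r)
    (hgen : ∀ I : Set ℕ, I.Infinite → Subgroup.closure (blk Y I) = ⊤) :
    ∃ X : Set G, Subgroup.closure X = ⊤ ∧ X.Infinite ∧ ∀ n, ∃ g, g ∉ ball X n := by
  classical
  -- add an injective sequence to the blocks, so that the result is infinite
  set z : ℕ ↪ G := Infinite.natEmbedding G with hz
  let W : ℕ → Finset G := fun i => insert (z i) (Y i)
  have hW : ∀ i, (W i).card ≤ r + 1 := fun i =>
    (Finset.card_insert_le _ _).trans (Nat.add_le_add_right (hY i) 1)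
  have hYW : ∀ I, blk Y I ⊆ blk W I := by
    intro I
    apply Set.iUnion₂_mono
    intro i _
    exact_mod_cast Finset.subset_insert _ _
  have hstep : ∀ (n : ℕ) (p : {p : Finset ℕ × Set ℕ // p.2.Infinite}),
      ∃ q : {p : Finset ℕ × Set ℕ // p.2.Infinite}, p.1.1 ⊆ q.1.1 ∧ q.1.1.card = p.1.1.card + 1 ∧
        ((q.1.1 : Set ℕ) ∪ q.1.2 ⊆ p.1.1 ∪ p.1.2) ∧ ∃ g, g ∉ ball (blk W (q.1.1 ∪ q.1.2)) n := by
    rintro n ⟨⟨F, A⟩, hA⟩
    obtain ⟨A', hA', hinf, g, hg⟩ := thin_step W (r + 1) hW F A hA n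
    obtain ⟨a, ha1, ha2⟩ := hinf.exists_notMem_finset F
    have hsub : (((insert a F : Finset ℕ) : Set ℕ) ∪ A') ⊆ F ∪ A' := by
      rw [Finset.coe_insert]
      intro x hx
      rcases hx with (rfl | hx) | hx
      · exact Or.inr ha1
      · exact Or.inl hx
      · exact Or.inr hx
    refine ⟨⟨(insert a F, A'), hinf⟩, Finset.subset_insert _ _, Finset.card_insert_of_notMem ha2,
      hsub.trans (Set.union_subset_union_right _ hA'), g, fun h => hg ?_⟩
    exact ball_mono (blk_mono W hsub) n h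
  choose next h1 h2 h3 h4 using hstep
  obtain ⟨seq, hseq⟩ : ∃ seq : ℕ → {p : Finset ℕ × Set ℕ // p.2.Infinite},
      ∀ m, seq (m + 1) = next m (seq m) :=
    ⟨fun m => Nat.rec ⟨(∅, Set.univ), Set.infinite_univ⟩ (fun k p => next k p) m, fun _ => rfl⟩
  have hFmono : Monotone (fun m => (seq m).1.1) := by
    refine monotone_nat_of_le_succ (fun m => ?_)
    simp only [hseq]
    exact h1 _ _
  have hDanti : Antitone (fun m => ((seq m).1.1 : Set ℕ) ∪ (seq m).1.2) := by
    refine antitone_nat_of_succ_le (fun m => ?_)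
    simp only [hseq]
    exact h3 _ _
  have hcard : ∀ m, m ≤ ((seq m).1.1).card := by
    intro m
    induction m with
    | zero => exact Nat.zero_le _
    | succ m ih => rw [hseq, h2]; omega
  set I : Set ℕ := ⋃ m : ℕ, ((seq m).1.1 : Set ℕ) with hI
  have hIinf : I.Infinite := by
    intro hfin
    have h5 : ((seq (hfin.toFinset.card + 1)).1.1) ⊆ hfin.toFinset := by
      intro x hx
      rw [Set.Finite.mem_toFinset]
      exact Set.mem_iUnion.mpr ⟨_, hx⟩
    have h6 := Finset.card_le_card h5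
    have h7 := hcard (hfin.toFinset.card + 1)
    omega
  have hID : ∀ m, I ⊆ ((seq m).1.1 : Set ℕ) ∪ (seq m).1.2 := by
    intro m x hx
    rw [hI, Set.mem_iUnion] at hx
    obtain ⟨k, hk⟩ := hx
    rcases le_total k m with h | h
    · exact Or.inl (hFmono h hk)
    · exact hDanti h (Or.inl hk)
  refine ⟨blk W I, ?_, ?_, ?_⟩
  · rw [eq_top_iff, ← hgen I hIinf]
    exact Subgroup.closure_mono (hYW I)
  · have h8 : (z '' I) ⊆ blk W I := by
      rintro _ ⟨i, hi, rfl⟩
      simp only [blk, Set.mem_iUnion]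
      exact ⟨i, hi, by simp [W]⟩
    exact (hIinf.image z.injective.injOn).mono h8
  · intro n
    obtain ⟨g, hg⟩ := h4 n (seq n)
    refine ⟨g, fun h => hg ?_⟩
    rw [← hseq]
    exact ball_mono (blk_mono W (hID (n + 1))) n h

/-- bounded upper rank -/
theorem slow_of_rank [Infinite G] [Countable G] (r : ℕ)
    (h : ∀ F : Finset G, ∃ Y : Finset G, Y.card ≤ r ∧ (F : Set G) ⊆ Subgroup.closure (Y : Set G)) :
    ∃ X : Set G, Subgroup.closure X = ⊤ ∧ X.Infinite ∧ ∀ n, ∃ g, g ∉ ball X n := by
  classical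
  obtain ⟨e, he⟩ := exists_surjective_nat G
  choose Y hY1 hY2 using h
  refine slow_blocks (fun i => Y ((Finset.range (i + 1)).image e)) r (fun i => hY1 _) ?_
  intro I hI
  rw [eq_top_iff]
  intro g _
  obtain ⟨m, rfl⟩ := he g
  obtain ⟨i, hi, hmi⟩ := hI.exists_gt m
  have h1 : e m ∈ Subgroup.closure ((Y ((Finset.range (i + 1)).image e) : Finset G) : Set G) := by
    apply hY2
    simp only [Finset.coe_image, Set.mem_image]
    exact ⟨m, by simp; omega, rfl⟩
  refine Subgroup.closure_mono ?_ h1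
  intro x hx
  simp only [blk, Set.mem_iUnion]
  exact ⟨i, hi, hx⟩

theorem ball_sub_pow (X : Set G) (n : ℕ) : ball X n ⊆ (insert 1 (X ∪ X⁻¹)) ^ n := by
  rintro g ⟨l, h1, h2, h3⟩
  have key : ∀ l : List G, (∀ x ∈ l, x ∈ X ∨ x⁻¹ ∈ X) → l.prod ∈ (insert 1 (X ∪ X⁻¹)) ^ l.length := by
    intro l
    induction l with
    | nil => intro _; simp
    | cons a l ih =>
      intro h
      rw [List.prod_cons, List.length_cons, pow_succ']
      refine Set.mul_mem_mul ?_ (ih (fun x hx => h x (List.mem_cons_of_mem _ hx)))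
      have := h a List.mem_cons_self
      rw [Set.mem_insert_iff, Set.mem_union, Set.mem_inv]
      exact Or.inr this
  have h4 := key l h2
  rw [h3] at h4
  exact Set.pow_subset_pow_right (Set.mem_insert _ _) h1 h4

/-- if a countable Hausdorff topological group is generated by boundedly long words in a set converging to the identity, it is finite -/
theorem finite_of_ball [TopologicalSpace G] [IsTopologicalGroup G] [T2Space G] [Countable G]
    (X : Set G) (hX : ∀ U ∈ 𝓝 (1 : G), (X \ U).Finite) (n : ℕ) (hn : ∀ g, g ∈ ball X n) : Finite G := by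
  have hc : IsCompact (insert 1 X) := by
    refine isCompact_of_finite_subcover ?_
    intro ι U hU hcov
    obtain ⟨i, hi⟩ : ∃ i, (1 : G) ∈ U i := by
      have := hcov (Set.mem_insert _ _)
      simpa using this
    have hfin := hX (U i) ((hU i).mem_nhds hi)
    have h2 : ∀ x ∈ X \ U i, ∃ j, x ∈ U j := by
      intro x hx
      have := hcov (Set.mem_insert_of_mem _ hx.1)
      simpa using this
    have : Nonempty ι := ⟨i⟩
    choose! f hf using h2
    classical
    refine ⟨insert i (hfin.toFinset.image f), ?_⟩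
    intro x hx
    simp only [Set.mem_iUnion]
    rcases hx with rfl | hx
    · exact ⟨i, Finset.mem_insert_self _ _, hi⟩
    · by_cases hxi : x ∈ U i
      · exact ⟨i, Finset.mem_insert_self _ _, hxi⟩
      · refine ⟨f x, Finset.mem_insert_of_mem ?_, hf x ⟨hx, hxi⟩⟩
        rw [Finset.mem_image]
        exact ⟨x, hfin.mem_toFinset.mpr ⟨hx, hxi⟩, rfl⟩
  have hc2 : IsCompact (insert 1 (X ∪ X⁻¹)) := by
    have : insert 1 (X ∪ X⁻¹) = (insert 1 X) ∪ (insert 1 X)⁻¹ := by
      ext x
      simp only [Set.mem_insert_iff, Set.mem_union, Set.mem_inv, inv_eq_one]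
      tauto
    rw [this]
    exact hc.union hc.inv
  have hc3 : ∀ m : ℕ, IsCompact ((insert 1 (X ∪ X⁻¹)) ^ m) := by
    intro m
    induction m with
    | zero => rw [pow_zero]; exact isCompact_singleton
    | succ m ih => rw [pow_succ]; exact ih.mul hc2
  have huniv : (insert 1 (X ∪ X⁻¹)) ^ n = Set.univ :=
    Set.eq_univ_of_forall (fun g => ball_sub_pow X n (hn g))
  have hcomp : CompactSpace G := ⟨by rw [← huniv]; exact hc3 n⟩
  have hbaire : ∃ g : G, (interior ({g} : Set G)).Nonempty := by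
    refine nonempty_interior_of_iUnion_of_closed (fun g => isClosed_singleton) ?_
    exact Set.iUnion_of_singleton G
  obtain ⟨g, x, hx⟩ := hbaire
  have hxg : x = g := by simpa using interior_subset hx
  subst hxg
  have hopen : IsOpen ({x} : Set G) := by
    have : interior ({x} : Set G) = {x} := by
      apply subset_antisymm interior_subset
      rintro y rfl
      exact hx
    rw [← this]; exact isOpen_interior
  have h1 : IsOpen ({1} : Set G) := by
    have : (fun y => x * y) ⁻¹' {x} = ({1} : Set G) := by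
      ext y; simp
    rw [← this]
    exact hopen.preimage (continuous_const_mul x)
  have : DiscreteTopology G := discreteTopology_of_isOpen_singleton_one h1
  exact finite_of_compact_of_discrete

/-- a countable infinite group with a precompact Hausdorff group topology has a slow infinite generating set -/
theorem slow_of_precompact [t0 : TopologicalSpace G] [IsTopologicalGroup G] [T2Space G] [Countable G]
    [Infinite G] (hpre : ∀ V ∈ 𝓝 (1 : G), ∀ A : Set G, ∃ F : Finset G, (F : Set G) ⊆ A ∧ A ⊆ F * V) :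
    ∃ X : Set G, Subgroup.closure X = ⊤ ∧ X.Infinite ∧ ∀ n, ∃ g, g ∉ ball X n := by
  classical
  obtain ⟨e, he⟩ := exists_surjective_nat G
  -- the refinement step
  have hstep : ∀ (m : ℕ) (U : {U : Set G // U ∈ 𝓝 (1 : G)}), ∃ V : {U : Set G // U ∈ 𝓝 (1 : G)},
      V.1 ⊆ U.1 ∧ V.1 * V.1 ⊆ U.1 ∧ V.1⁻¹ ⊆ U.1 ∧ (∀ i ≤ m, ∀ x ∈ V.1, e i * x * (e i)⁻¹ ∈ U.1) ∧
        (e m ≠ 1 → e m ∉ V.1) := by
    rintro m ⟨U, hU⟩
    obtain ⟨V1, hV1, hV1U⟩ : ∃ V ∈ 𝓝 (1 : G), V * V ⊆ U := by
      obtain ⟨V, hV, _, _, hVU⟩ := exists_closed_nhds_one_inv_eq_mul_subset hU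
      exact ⟨V, hV, hVU⟩
    have hinv : U⁻¹ ∈ 𝓝 (1 : G) := inv_mem_nhds_one G hU
    have hconj : ∀ i ∈ Finset.range (m + 1), {x | e i * x * (e i)⁻¹ ∈ U} ∈ 𝓝 (1 : G) := by
      intro i _
      have hc : Continuous (fun x : G => e i * x * (e i)⁻¹) := by fun_prop
      have := hc.tendsto 1
      simp only [mul_one, mul_inv_cancel] at this
      exact this hU
    have hconj2 : (⋂ i ∈ Finset.range (m + 1), {x | e i * x * (e i)⁻¹ ∈ U}) ∈ 𝓝 (1 : G) :=
      (Filter.biInter_finset_mem _).mpr hconj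
    obtain ⟨V2, hV2, hV2e⟩ : ∃ V ∈ 𝓝 (1 : G), (e m ≠ 1 → e m ∉ V) := by
      by_cases h : e m = 1
      · exact ⟨Set.univ, Filter.univ_mem, fun h' => absurd h h'⟩
      · exact ⟨{e m}ᶜ, isOpen_compl_singleton.mem_nhds (by simpa using Ne.symm h), fun _ => by simp⟩
    refine ⟨⟨(U ∩ V1) ∩ (U⁻¹ ∩ ((⋂ i ∈ Finset.range (m + 1), {x | e i * x * (e i)⁻¹ ∈ U}) ∩ V2)),
      Filter.inter_mem (Filter.inter_mem hU hV1) (Filter.inter_mem hinv (Filter.inter_mem hconj2 hV2))⟩, ?_, ?_, ?_, ?_, ?_⟩
    · exact fun x hx => hx.1.1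
    · rintro _ ⟨x, hx, y, hy, rfl⟩
      exact hV1U ⟨x, hx.1.2, y, hy.1.2, rfl⟩
    · intro x hx
      have : x⁻¹ ∈ U⁻¹ := (Set.mem_inv.mp hx).2.1
      simpa using this
    · intro i hi x hx
      have := hx.2.2.1
      simp only [Set.mem_iInter, Set.mem_ofPred_eq] at this
      exact this i (by simp; omega)
    · intro h hx
      exact hV2e h hx.2.2.2
  choose next h1 h2 h3 h4 h5 using hstep
  obtain ⟨U, hU0, hUs⟩ : ∃ U : ℕ → {U : Set G // U ∈ 𝓝 (1 : G)}, (U 0).1 = Set.univ ∧
      ∀ m, U (m + 1) = next m (U m) :=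
    ⟨fun m => Nat.rec ⟨Set.univ, Filter.univ_mem⟩ (fun k p => next k p) m, rfl, fun _ => rfl⟩
  have hanti : Antitone (fun m => (U m).1) := by
    refine antitone_nat_of_succ_le (fun m => ?_)
    simp only [hUs]
    exact h1 _ _
  have hsep : ∀ x : G, x ≠ 1 → ∃ m, x ∉ (U m).1 := by
    intro x hx
    obtain ⟨m, rfl⟩ := he x
    exact ⟨m + 1, by rw [hUs]; exact h5 _ _ hx⟩
  have hone : ∀ m, (1 : G) ∈ (U m).1 := fun m => mem_of_mem_nhds (U m).2
  have hF : ∀ m, ∃ F : Finset G, (F : Set G) ⊆ (U m).1 ∧ (U m).1 ⊆ F * (U (m + 1)).1 :=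
    fun m => hpre _ (U (m + 1)).2 _
  choose F hF1 hF2 using hF
  have key : ∀ n : ℕ, ∀ h : G, ∃ a ∈ Subgroup.closure (⋃ m, (F m : Set G)), ∃ w ∈ (U n).1, h = a * w := by
    intro n
    induction n with
    | zero => intro h; exact ⟨1, one_mem _, h, by rw [hU0]; trivial, by simp⟩
    | succ n ih =>
      intro h
      obtain ⟨a, ha, w, hw, rfl⟩ := ih h
      obtain ⟨f, hf, w', hw', rfl⟩ := hF2 n hw
      refine ⟨a * f, mul_mem ha (Subgroup.subset_closure (Set.mem_iUnion.mpr ⟨n, hf⟩)), w', hw', ?_⟩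
      simp [mul_assoc]
  have hv : ∀ m, ∃ v ∈ (U m).1, v ≠ 1 := by
    intro m
    by_contra hcon
    push Not at hcon
    obtain ⟨T, _, hT⟩ := hpre _ (U m).2 Set.univ
    have : (Set.univ : Set G) ⊆ T := by
      intro x hx
      obtain ⟨f, hf, w, hw, rfl⟩ := hT hx
      simpa [hcon w hw] using hf
    exact Set.infinite_univ (T.finite_toSet.subset this)
  choose v hv1 hv2 using hv
  have hw : ∀ n, ∃ a ∈ Subgroup.closure (⋃ m, (F m : Set G)), ∃ w ∈ (U n).1, e n = a * w :=
    fun n => key n (e n)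
  choose a ha w hw1 hw2 using hw
  set X : Set G := (⋃ m, (F m : Set G)) ∪ (Set.range w ∪ Set.range v) with hX
  have hXU : ∀ m, (X \ (U m).1).Finite := by
    intro m
    have hsub : X \ (U m).1 ⊆ (⋃ k ∈ Finset.range m, (F k : Set G)) ∪
        (w '' (Finset.range m) ∪ v '' (Finset.range m)) := by
      rintro x ⟨hx, hxU⟩
      rcases hx with hx | ⟨k, rfl⟩ | ⟨k, rfl⟩
      · rw [Set.mem_iUnion] at hx
        obtain ⟨k, hk⟩ := hx
        left
        have : k < m := by
          by_contra hkm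
          exact hxU (hanti (not_lt.mp hkm) (hF1 k hk))
        simp only [Set.mem_iUnion]
        exact ⟨k, by simpa using this, hk⟩
      · right; left
        refine ⟨k, ?_, rfl⟩
        by_contra hkm
        simp only [Finset.coe_range, Set.mem_Iio] at hkm
        exact hxU (hanti (not_lt.mp hkm) (hw1 k))
      · right; right
        refine ⟨k, ?_, rfl⟩
        by_contra hkm
        simp only [Finset.coe_range, Set.mem_Iio] at hkm
        exact hxU (hanti (not_lt.mp hkm) (hv1 k))
    refine Set.Finite.subset ?_ hsub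
    refine Set.Finite.union ?_ (Set.Finite.union ?_ ?_)
    · exact (Finset.finite_toSet _).biUnion (fun k _ => (F k).finite_toSet)
    · exact (Finset.finite_toSet _).image _
    · exact (Finset.finite_toSet _).image _
  refine ⟨X, ?_, ?_, ?_⟩
  · rw [eq_top_iff]
    intro g _
    obtain ⟨n, rfl⟩ := he g
    rw [hw2 n]
    refine mul_mem (Subgroup.closure_mono Set.subset_union_left (ha n)) (Subgroup.subset_closure ?_)
    exact Or.inr (Or.inl ⟨n, rfl⟩)
  · intro hfin
    choose! μ hμ using hsep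
    have h6 : v (hfin.toFinset.sup μ) ∈ X := Or.inr (Or.inr ⟨_, rfl⟩)
    have h7 := hμ _ (hv2 (hfin.toFinset.sup μ))
    apply h7
    refine hanti ?_ (hv1 (hfin.toFinset.sup μ))
    exact Finset.le_sup (f := μ) (hfin.mem_toFinset.mpr h6)
  · by_contra hcon
    push Not at hcon
    obtain ⟨n, hn⟩ := hcon
    let B : GroupFilterBasis G :=
      { sets := Set.range (fun m => (U m).1)
        nonempty := ⟨_, 0, rfl⟩
        inter_sets := by
          rintro _ _ ⟨i, rfl⟩ ⟨j, rfl⟩
          exact ⟨_, ⟨max i j, rfl⟩, Set.subset_inter (hanti (le_max_left i j)) (hanti (le_max_right i j))⟩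
        one' := by rintro _ ⟨i, rfl⟩; exact hone i
        mul' := by rintro _ ⟨i, rfl⟩; exact ⟨_, ⟨i + 1, rfl⟩, by simp only [hUs]; exact h2 _ _⟩
        inv' := by
          rintro _ ⟨i, rfl⟩
          refine ⟨_, ⟨i + 1, rfl⟩, ?_⟩
          intro x hx
          simp only [hUs] at hx
          exact h3 _ _ (Set.inv_mem_inv.mpr hx)
        conj' := by
          rintro x _ ⟨i, rfl⟩
          obtain ⟨j, rfl⟩ := he x
          refine ⟨_, ⟨max i j + 1, rfl⟩, ?_⟩
          intro y hy
          simp only [hUs] at hy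
          exact hanti (le_max_left i j) (h4 _ _ j (le_max_right i j) y hy) }
    have hmemB : ∀ m, (U m).1 ∈ @nhds G B.topology 1 := by
      intro m
      rw [(GroupFilterBasis.nhds_one_hasBasis B).mem_iff]
      exact ⟨_, ⟨m, rfl⟩, subset_rfl⟩
    have hfinG : Finite G := by
      refine @finite_of_ball G _ B.topology (GroupFilterBasis.isTopologicalGroup B) ?_ _ X ?_ n hn
      · refine @IsTopologicalGroup.t2Space_of_one_sep G B.topology _ (GroupFilterBasis.isTopologicalGroup B) ?_
        intro x hx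
        obtain ⟨m, hm⟩ := hsep x hx
        exact ⟨_, hmemB m, hm⟩
      · intro V hV
        rw [(GroupFilterBasis.nhds_one_hasBasis B).mem_iff] at hV
        obtain ⟨_, ⟨m, rfl⟩, hm⟩ := hV
        exact (hXU m).subset (Set.sdiff_subset_sdiff_right hm)
    exact not_finite G

/-- traces of neighbourhoods on a subgroup of a compact group: finitely many translates cover -/
theorem precompact_of_compact {K : Type*} [Group K] [TopologicalSpace K] [IsTopologicalGroup K]
    [CompactSpace K] (H : Subgroup K) (V : Set H) (hV : V ∈ 𝓝 (1 : H)) (A : Set H) :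
    ∃ F : Finset H, (F : Set H) ⊆ A ∧ A ⊆ F * V := by
  classical
  rw [nhds_subtype_eq_comap, Filter.mem_comap] at hV
  obtain ⟨O, hO, hOV⟩ := hV
  have hO' : O ∈ 𝓝 (1 : K) := hO
  obtain ⟨W, hW, _, hWinv, hWO⟩ := exists_closed_nhds_one_inv_eq_mul_subset hO'
  obtain ⟨t, _, ht⟩ := isCompact_univ.elim_nhds_subcover (fun x : K => {y | x⁻¹ * y ∈ W}) (by
    intro x _
    have hc : Continuous (fun y : K => x⁻¹ * y) := by fun_prop
    have := hc.tendsto x
    simp only [inv_mul_cancel] at this
    exact this hW)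
  let P : K → Prop := fun x => ∃ f ∈ A, x⁻¹ * (f : K) ∈ W
  let f : K → H := fun x => if h : P x then h.choose else 1
  have hf : ∀ x, P x → f x ∈ A ∧ x⁻¹ * (f x : K) ∈ W := by
    intro x hx
    simp only [f, dif_pos hx]
    exact hx.choose_spec
  refine ⟨(t.filter P).image f, ?_, ?_⟩
  · intro y hy
    rw [Finset.mem_coe, Finset.mem_image] at hy
    obtain ⟨x, hx, rfl⟩ := hy
    exact (hf x (Finset.mem_filter.mp hx).2).1
  · intro u hu
    have h1 := ht (Set.mem_univ (u : K))
    simp only [Set.mem_iUnion] at h1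
    obtain ⟨x, hx, hxu⟩ := h1
    have hxu' : x⁻¹ * (u : K) ∈ W := hxu
    have hP : P x := ⟨u, hu, hxu'⟩
    refine ⟨f x, ?_, (f x)⁻¹ * u, ?_, by simp⟩
    · rw [Finset.mem_coe, Finset.mem_image]
      exact ⟨x, Finset.mem_filter.mpr ⟨hx, hP⟩, rfl⟩
    · apply hOV
      apply hWO
      refine ⟨(x⁻¹ * (f x : K))⁻¹, ?_, x⁻¹ * u, hxu', ?_⟩
      · rw [← hWinv]
        exact Set.inv_mem_inv.mpr (hf x hP).2
      · simp [mul_assoc]

/-- slow infinite generating sets pull back along surjections -/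
theorem slow_lift {H : Type*} [Group H] (f : G →* H) (hf : Function.Surjective f)
    (h : ∃ X : Set H, Subgroup.closure X = ⊤ ∧ X.Infinite ∧ ∀ n, ∃ g, g ∉ ball X n) :
    ∃ X : Set G, Subgroup.closure X = ⊤ ∧ X.Infinite ∧ ∀ n, ∃ g, g ∉ ball X n := by
  obtain ⟨X, h1, h2, h3⟩ := h
  refine ⟨f ⁻¹' X, ?_, ?_, ?_⟩
  · have hmap : (Subgroup.closure (f ⁻¹' X)).map f = ⊤ := by
      rw [MonoidHom.map_closure, Set.image_preimage_eq X hf, h1]
    have hker : f.ker ≤ Subgroup.closure (f ⁻¹' X) := by
      intro k hk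
      obtain ⟨x, hx⟩ := h2.nonempty
      obtain ⟨g, rfl⟩ := hf x
      have e1 : g ∈ Subgroup.closure (f ⁻¹' X) := Subgroup.subset_closure hx
      have e2 : g * k ∈ Subgroup.closure (f ⁻¹' X) := by
        apply Subgroup.subset_closure
        rw [Set.mem_preimage, map_mul, MonoidHom.mem_ker.mp hk, mul_one]
        exact hx
      have := mul_mem (inv_mem e1) e2
      simpa using this
    rw [← Subgroup.comap_map_eq_self hker, hmap, Subgroup.comap_top]
  · intro hfin
    apply h2
    rw [← Set.image_preimage_eq X hf]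
    exact hfin.image f
  · intro n
    obtain ⟨g, hg⟩ := h3 n
    obtain ⟨g', rfl⟩ := hf g
    refine ⟨g', fun hmem => hg ?_⟩
    obtain ⟨l, e1, e2, e3⟩ := hmem
    refine ⟨l.map f, by simpa using e1, ?_, ?_⟩
    · intro x hx
      rw [List.mem_map] at hx
      obtain ⟨y, hy, rfl⟩ := hx
      rcases e2 y hy with h | h
      · exact Or.inl h
      · right; simpa using h
    · rw [← e3, map_list_prod]

/-- Let `G` be a countable group. Assume that some infinite quotient `H` of `G` has an integer `r` such that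
each finite subset of `H` lies in a subgroup generated by at most `r` elements, or that `G` has
a homomorphism with infinite image to a compact Hausdorff group. Then `G` has
an infinite slow generating set. -/
theorem result (G : Type) [Group G] [Countable G]
    (h : (∃ (H : Type) (_ : Group H) (f : G →* H), Function.Surjective f ∧ Infinite H ∧
            ∃ r : ℕ, ∀ F : Finset H, ∃ Y : Finset H, Y.card ≤ r ∧
              (F : Set H) ⊆ Subgroup.closure (Y : Set H)) ∨
         (∃ (K : Type) (_ : Group K) (_ : TopologicalSpace K) (_ : IsTopologicalGroup K)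
            (_ : CompactSpace K) (_ : T2Space K) (φ : G →* K), (Set.range φ).Infinite)) :
    ∃ X : Set G, Subgroup.closure X = ⊤ ∧ X.Infinite ∧
      ¬ ∃ n : ℕ, ∀ g : G, ∃ l : List G,
          l.length ≤ n ∧ (∀ x ∈ l, x ∈ X ∨ x⁻¹ ∈ X) ∧ l.prod = g := by
  have main : ∃ X : Set G, Subgroup.closure X = ⊤ ∧ X.Infinite ∧ ∀ n, ∃ g, g ∉ ball X n := by
    rcases h with ⟨H, _, f, hf, _, r, hr⟩ | ⟨K, _, _, _, _, _, φ, hφ⟩
    · have : Countable H := hf.countable
      exact slow_lift f hf (slow_of_rank r hr)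
    · have hf : Function.Surjective φ.rangeRestrict := φ.rangeRestrict_surjective
      have : Countable φ.range := hf.countable
      have : Infinite φ.range := by
        rw [← Set.infinite_coe_iff] at hφ
        rw [← MonoidHom.coe_range] at hφ
        exact hφ
      exact slow_lift φ.rangeRestrict hf
        (slow_of_precompact (fun V hV A => precompact_of_compact φ.range V hV A))
  obtain ⟨X, h1, h2, h3⟩ := main
  refine ⟨X, h1, h2, ?_⟩
  rintro ⟨n, hn⟩
  obtain ⟨g, hg⟩ := h3 n
  exact hg (hn g)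

end Pool.Agent.Results.MP_3a7344_al.SlowRankCompact
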